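import Pool.Agent.W547.UB.Tate

/-!
# Tate classes on abelian varieties of CM type over finitely generated fields, in independent blocks

Let `A` be an abelian variety over a field `k` finitely generated over its prime field. Suppose that
either `k` has characteristic zero and `A` is of CM type, or `A` is obtained from an ordinary abelian
variety over a finite field. Up to isogeny and finite extensions of `k`, let `X` be `A` in the first
case and the canonical lift in the second case: a product of any number of abelian varieties `A i`
with complex multiplication by CM fields `E i`, with CM types `Φ i`.
The factors are divided into blocks (the block of the factor `A i` is `b i`), such that for each block
there is an automorphism of the field of complex numbers that acts as the complex conjugation on all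
embeddings of the CM fields in this block and trivially on all embeddings of the CM fields in the
other blocks (the intersection of the Galois closure of the fields of the block with the compositum of
the Galois closures of the other fields is totally real; for one block this is no condition). Each
block is of one of the following kinds:

* its factors have dimension at most three, and any two of them whose CM fields have the same Galois
  closure over `ℚ` have isomorphic CM types, unless these CM fields are Galois over `ℚ`;
* its factors are factors (up to isogeny) of one abelian variety of CM type of dimension at most
  five, each with any multiplicity;
* its factors have the same CM type, with a CM field of degree at most fourteen;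
* its factors are factors (up to isogeny) of one nondegenerate abelian variety of CM type, of
  arbitrary dimension, each with any multiplicity.

For example `X` may be any power of any abelian variety of CM type of dimension at most five, or any
power of a simple abelian variety of CM type of dimension at most seven, or a product of such powers
for which the Galois closures of the CM fields are linearly disjoint. The conditions hold for all
powers of `X` if they hold for `X`.

Let `V = V_ℓ(A) = ℚ_ℓ ⊗ H_1(X, ℚ)` be the rational Tate module, with the action `ρ` of the Galois
group and the cyclotomic character `χ`, and let `γ` be a Frobenius element: in characteristic zero at
one place above a prime number `p ≠ ℓ` that splits completely in the fields `E i`, in characteristic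
`p` an element inducing a Frobenius automorphism of the algebraic closure of the prime field. It acts
by the multiplication by `π ∈ ∏ E i`, with absolute values given by the theorem of Shimura and Taniyama.

Then all Tate classes on `A` (the classes in `H^{2m}(A, ℚ_ℓ(m))` fixed by a subgroup of finite index
of the Galois group) are linear combinations, with coefficients in `ℚ_ℓ`, of classes in the ring
generated by the classes of divisors on `X` and by the pull-backs, along homomorphisms `X → Y`, of the
Weil classes of imaginary quadratic fields on abelian fourfolds and sixfolds `Y` of CM type and of
split Weil type. More generally, for every subspace `W` stable under a subgroup of finite
index, the classes invariant modulo `W` are congruent modulo `W` to such linear combinations.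

The Weil classes on abelian fourfolds of Weil type and on abelian sixfolds of split Weil type are
algebraic by theorems of Markman. With these theorems the Tate conjecture holds for all these abelian
varieties and all their powers, over all these fields, and for all their open subvarieties.
-/

namespace Pool.Agent.Results.MP_7b53ad_ag.CMIndependentBlocks

open Pool.Agent.W547.KB Pool.Agent.W547.LD Pool.Agent.W530.NF Pool.Agent.W547.LQ
open Pool.Agent.W547.UB

/-- `X` a product of abelian varieties of CM type in independent blocks, `V` the rational Tate module
with the action `ρ` of the Galois group `G`, `γ ∈ G` one Frobenius element: all classes of degree
`2 m` invariant modulo a stable subspace are generated modulo this subspace (for the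
subspace zero, all Tate classes are generated). -/
theorem result (X : CMAV) {J : Type} (b : X.I → J) (hX : IndependentBlocks X b)
    {K V G : Type} [Field K] [CharZero K] [AddCommGroup V] [Module K V] [Group G]
    (C : Comparison X K V) (ρ : Representation K G V) (χ : G →* K) (w : AbsoluteValue ℂ ℝ)
    (q : ℕ) (π : X.H1) (γ : G) (h : IsFrobeniusAt X C ρ χ w q π γ) : TateForQuotients C ρ χ :=
  tate_open X b hX C ρ χ w q π γ h

end Pool.Agent.Results.MP_7b53ad_ag.CMIndependentBlocks
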