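import Mathlib
import Pool.Agent.H204R3.GP.Defs
import Pool.Agent.W522.U.Defs
import Pool.Agent.W528.Tor.MainE
import Pool.Agent.W528.Tor.Defs

/-!
# The Tate conjecture for all powers of abelian varieties with places of small toric rank

Let `A` be an abelian variety over a finitely generated field `k` (of any characteristic different
from `ℓ`), `V` its rational `ℓ`-adic Tate module with the action `ρ` of the Galois group `Γ`, `χ`
the cyclotomic character and `ω` the Weil pairing of a polarization.  Let `Ω` be an algebraic
closure of `ℚ_ℓ`.

The *strongly irreducible* subspaces `U` of `Ω ⊗ V` (predicate `SI`) are the minimal nonzero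
subspaces that are stable under a subgroup of finite index of `Γ`.  If `End(A) = ℤ` over all
extensions of `k` there is just one, `Ω ⊗ V`; if `End(A) ⊗ ℚ` is a totally real field `F`, there
is one for each of the embeddings of `F` into `Ω`.

At a place of semistable reduction the inertia group acts on `V` through its tame quotient by
elements `γ` with `(γ - 1) ^ 2 = 0`, and the rank of `γ - 1` on `V` is the toric rank of the
reduction.  The theorem: suppose that

* (small toric rank) for every strongly irreducible `U` of dimension at least two there is an
  element `γ` of the Galois group with `(γ - 1) ^ 2 = 0` such that `γ - 1` has rank one on `U`, or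
  has rank two on `U` and `U` is self-dual with an alternating pairing;
* the one-dimensional `U` (which come from the factors of CM type) are not self-dual;
* (twists) if `U` has dimension at least two and is not self-dual, then every twist of `U` by a
  character that occurs in `Ω ⊗ V` is potentially isomorphic to `U`;
* (determinants) the characters `det(U i) ^ 2 / χ ^ (dim (U i))` of the strongly irreducible
  subspaces `U i` which are pairwise neither isomorphic nor dual, and not self-dual, are
  multiplicatively independent modulo characters of finite order.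

Then for all `n` all Tate classes in the cohomology of `A ^ n` are linear combinations of wedge
products of Tate classes of degree two, hence algebraic by the theorems of Zarhin and Faltings: the
Tate conjecture holds for all powers of `A`.  If all `U` are self-dual with an alternating pairing
(`A` is a product of abelian varieties of types I and II) the last three conditions are empty.

In rank two the proof is an elementary argument on the Lie algebra of the operators that kill the
Tate classes (files `Pool.Agent.W528.Tor`): if a Lie algebra of symplectic operators, stable under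
a group all of whose subgroups of finite index act irreducibly, contains a square-zero element of
rank two, which is the logarithm of an element of the group, then it is the symplectic Lie algebra.
-/

namespace Pool.Agent.Results.MP_7b53ad_ag.SmallToricRank

open Module TensorProduct Pool.Agent.H204R3.GP Pool.Agent.H204R3.SP Pool.Agent.W522.U
open Pool.Agent.W528.Tor

theorem result (ℓ : ℕ) [Fact ℓ.Prime]
    {V : Type} [AddCommGroup V] [Module ℚ_[ℓ] V] [FiniteDimensional ℚ_[ℓ] V]
    {Γ : Type} [Group Γ] (ρ : Representation ℚ_[ℓ] Γ V) (χ : Γ →* ℚ_[ℓ])
    (ω : V →ₗ[ℚ_[ℓ]] V →ₗ[ℚ_[ℓ]] ℚ_[ℓ]) (halt : ∀ v, ω v v = 0)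
    (hnondeg : ∀ u, (∀ v, ω v u = 0) → u = 0)
    (hω : ∀ s u v, ω (ρ s u) (ρ s v) = χ s * ω u v)
    (hss : FiniteIndexSemisimple ρ)
    (Ω : Type) [Field Ω] [Algebra ℚ_[ℓ] Ω] [IsAlgClosure ℚ_[ℓ] Ω]
    (R : Representation Ω Γ (Ω ⊗[ℚ_[ℓ]] V)) (hR : ∀ s, R s = (ρ s).baseChange Ω)
    (χ' : Γ →* Ω) (hχ' : ∀ s, χ' s = algebraMap ℚ_[ℓ] Ω (χ s))
    (hsmall : HasSmallUnipotents R χ') (hone : LinesNotSelfDual R χ') (htwist : TwistFree R χ')
    (hdet : DetIndependent R χ') :
    TateGeneratedInDegreeTwo ρ χ := by
  have _ : IsAlgClosed Ω := IsAlgClosure.isAlgClosed ℚ_[ℓ]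
  have _ : Algebra.IsAlgebraic ℚ_[ℓ] Ω := IsAlgClosure.isAlgebraic
  have _ : CharZero Ω := charZero_of_injective_algebraMap (algebraMap ℚ_[ℓ] Ω).injective
  have hR' : R = bcr ρ Ω := by
    ext1 s
    exact hR s
  have hχ'' : χ' = bcc χ Ω := by
    ext1 s
    exact hχ' s
  subst hR' hχ''
  refine generated_of_ext ρ χ Ω fun m φ hφ => ?_
  exact main_X2 (bcb Ω ω)
    (bcb_nondeg_left ω hnondeg (left_nondeg ω halt hnondeg))
    (fun g u v => bcb_inv ρ χ ω hω g u v) hsmall hone htwist hdet (hasProj_bcr ρ Ω hss) φ hφ

end Pool.Agent.Results.MP_7b53ad_ag.SmallToricRank
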